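import Mathlib
import Pool.Agent.N979.CAP.Stm

/-! # Discs in the hemisphere are minimal fillings in any genus: definitions and statements

The same objects as in `Pool/Agent/N979/CAP/Stm.lean` (project CAP), with the radius `593/625` of the
disc of the calibration in place of `471/500`, and with sharper boundary functions. -/

set_option autoImplicit false

namespace Pool.Agent.K9h55.FA

open Real MeasureTheory Set Filter Topology Finset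
open Pool.Agent.H115R3.Filling Pool.Agent.W664.Fill
open Pool.Agent.N979.CAP

/-- Polynomial lower bounds. -/
noncomputable def Qr2 (q : ℝ) : ℝ := 1 + 1 / 4 * q + 3 / 16 * q ^ 2 + 15 / 128 * q ^ 3 + 105 / 1024 * q ^ 4 + 315 / 4096 * q ^ 5
  + 1155 / 16384 * q ^ 6 + 15015 / 262144 * q ^ 7 + 225225 / 4194304 * q ^ 8
  + 765765 / 16777216 * q ^ 9 + 2909907 / 67108864 * q ^ 10 + 20369349 / 536870912 * q ^ 11
  + 156165009 / 4294967296 * q ^ 12 + 557732175 / 17179869184 * q ^ 13 + 2151252675 / 68719476736 * q ^ 14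
  + 62386327575 / 2199023255552 * q ^ 15

noncomputable def Qt2 (q : ℝ) : ℝ := 1 - 1 / 4 * q + 3 / 16 * q ^ 2 - 15 / 128 * q ^ 3 + 105 / 1024 * q ^ 4 - 315 / 4096 * q ^ 5
  + 1155 / 16384 * q ^ 6 - 15015 / 262144 * q ^ 7 + 225225 / 4194304 * q ^ 8
  - 765765 / 16777216 * q ^ 9 + 2909907 / 67108864 * q ^ 10 - 20369349 / 536870912 * q ^ 11
  + 156165009 / 4294967296 * q ^ 12 - 557732175 / 17179869184 * q ^ 13 + 2151252675 / 68719476736 * q ^ 14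
  - 62386327575 / 2199023255552 * q ^ 15

def S_LOW2 : Prop := ∀ s : ℝ, 0 ≤ s → s < 1 → ∀ q : ℝ, q = s ^ 2 / (2 - s ^ 2) →
  √(1 + q) * (π / 2) * Qr2 q ≤ Ir s ∧ √(1 + q) * (π / 2) * Qt2 q ≤ It s

/-- Numerical inequalities. -/
structure S_NUM2 : Prop where
  ir : ∀ s : ℝ, 0 ≤ s → s ≤ 593 / 625 → π / 2 ≤ Ir s
  it : ∀ s : ℝ, 0 ≤ s → s ≤ 593 / 625 → π / 2 ≤ It s
  a : ∀ s : ℝ, 0 ≤ s → s ≤ 593 / 625 →
    π / √(1 - s ^ 2) * (π / 2 - 3 * π * s ^ 2 / 8) / (√(1 - s ^ 2) * Ir s) ^ 2 - 2 ≤ 25 / 9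
  b : ∀ s : ℝ, 0 ≤ s → s ≤ 593 / 625 →
    π / √(1 - s ^ 2) * (π / 2 - π * s ^ 2 / 8) / It s ^ 2 - 2 ≤ 36 / 25

/-- Comass, idealised form. -/
def S_IDL2 : Prop := ∀ ε > 0, ∃ N₀ : ℕ, ∀ N ≥ N₀, ∀ s ∈ Set.Icc (0 : ℝ) (593 / 625), ∀ φ : ℝ,
  ∀ a b : ℕ → ℝ, (∀ j, a j ^ 2 + b j ^ 2 ≤ 1) → ∀ na nb ma mb la lb ka kb : ℝ,
    na = sm N φ (xr s) a → nb = sm N φ (xr s) b → ma = sm N φ (xt s) a → mb = sm N φ (xt s) b →
    la = sm N φ cos a / (√(1 - s ^ 2) * Ir s) → lb = sm N φ cos b / (√(1 - s ^ 2) * Ir s) →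
    ka = sm N φ sin a / It s → kb = sm N φ sin b / It s →
    (la * mb - lb * ma) + (na * kb - nb * ka) - (la * kb - lb * ka) ≤ 1 + ε

/-- Comass in polar coordinates. -/
def S_POL2 : Prop := ∀ ε > 0, ∃ N₀ : ℕ, ∀ N ≥ N₀, ∀ s ∈ Set.Icc (0 : ℝ) (593 / 625), ∀ φ : ℝ,
  ∀ a b : ℕ → ℝ, (∀ j, a j ^ 2 + b j ^ 2 ≤ 1) → ∀ ra rb ta tb : ℝ,
    ∑ j ∈ range N, cos (ps N φ j) / √(DD s (ps N φ j))
      * (cos (ps N φ j) * ra + sin (ps N φ j) * ta) = ∑ j ∈ range N, cos (ps N φ j) * a j →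
    ∑ j ∈ range N, sin (ps N φ j) / √(DD s (ps N φ j))
      * (cos (ps N φ j) * ra + sin (ps N φ j) * ta) = ∑ j ∈ range N, sin (ps N φ j) * a j →
    ∑ j ∈ range N, cos (ps N φ j) / √(DD s (ps N φ j))
      * (cos (ps N φ j) * rb + sin (ps N φ j) * tb) = ∑ j ∈ range N, cos (ps N φ j) * b j →
    ∑ j ∈ range N, sin (ps N φ j) / √(DD s (ps N φ j))
      * (cos (ps N φ j) * rb + sin (ps N φ j) * tb) = ∑ j ∈ range N, sin (ps N φ j) * b j →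
    π / N * ∑ j ∈ range N, 2 / π / (DD s (ps N φ j) * √(DD s (ps N φ j)))
        * (sin (ps N φ j) * (ra * b j - rb * a j)
          - (1 - s ^ 2) * cos (ps N φ j) * (ta * b j - tb * a j))
      - (ra * tb - rb * ta) / √(1 - s ^ 2) ≤ 1 + ε

/-- Comass in cartesian coordinates. -/
def S_CAR2 : Prop := ∀ ε > 0, ∃ N₀ : ℕ, ∀ N ≥ N₀, ∀ x y : ℝ, x ^ 2 + y ^ 2 ≤ (593 / 625) ^ 2 →
  ∀ a b : ℕ → ℝ, (∀ j, a j ^ 2 + b j ^ 2 ≤ 1) → ∀ xa xb ya yb : ℝ,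
    ∑ j ∈ range N, cos (th N j) / √(1 - dt x y (th N j) ^ 2)
      * (cos (th N j) * xa + sin (th N j) * ya) = ∑ j ∈ range N, cos (th N j) * a j →
    ∑ j ∈ range N, sin (th N j) / √(1 - dt x y (th N j) ^ 2)
      * (cos (th N j) * xa + sin (th N j) * ya) = ∑ j ∈ range N, sin (th N j) * a j →
    ∑ j ∈ range N, cos (th N j) / √(1 - dt x y (th N j) ^ 2)
      * (cos (th N j) * xb + sin (th N j) * yb) = ∑ j ∈ range N, cos (th N j) * b j →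
    ∑ j ∈ range N, sin (th N j) / √(1 - dt x y (th N j) ^ 2)
      * (cos (th N j) * xb + sin (th N j) * yb) = ∑ j ∈ range N, sin (th N j) * b j →
    π / N * ∑ j ∈ range N,
        2 / π / ((1 - dt x y (th N j) ^ 2) * √(1 - dt x y (th N j) ^ 2))
        * ((sin (th N j) - y * dt x y (th N j)) * (xa * b j - xb * a j)
          - (cos (th N j) - x * dt x y (th N j)) * (ya * b j - yb * a j))
      - (xa * yb - xb * ya) / √(1 - x ^ 2 - y ^ 2) ≤ 1 + ε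

/-- Extension of the boundary functions. -/
def S_EXT2 : Prop := ∀ (M : Type) [MetricSpace M] (β : AddCircle (2 * π) → M) (s₀ : ℝ),
  0 ≤ s₀ → s₀ ≤ 1 →
  (∀ s t : ℝ, 2 * arcsin (s₀ * |sin ((s - t) / 2)|) ≤
    dist (β (s : AddCircle (2 * π))) (β (t : AddCircle (2 * π)))) →
  ∃ G : ℝ → M → ℝ, (∀ θ x y, |G θ x - G θ y| ≤ dist x y) ∧ (∀ θ x, G (θ + π) x = -G θ x) ∧
    (∀ θ x, |G θ x| ≤ arcsin s₀) ∧ (∀ θ θ' x, |G θ x - G θ' x| ≤ s₀ * |θ - θ'|) ∧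
    (∀ θ θ' x, |G θ x - G θ' x| ≤ 2 * arcsin (s₀ * |sin ((θ - θ') / 2)|)) ∧
    ∀ θ t : ℝ, G θ (β (t : AddCircle (2 * π))) = arcsin (s₀ * cos (θ - t))

/-- Integral bound for the first Fourier coefficient. -/
def S_GIN2 : Prop := ∀ s₀ : ℝ, 0 < s₀ → s₀ < 1 → ∀ g : ℝ → ℝ, (∀ θ, g (θ + π) = -g θ) →
  (∀ θ θ', |g θ - g θ'| ≤ s₀ * |θ - θ'|) →
  (∀ θ θ', |g θ - g θ'| ≤ 2 * arcsin (s₀ * |sin ((θ - θ') / 2)|)) →
  ∀ φ, ∫ θ in (0 : ℝ)..π, cos (θ - φ) * g θ ≤ ∫ ψ in (0 : ℝ)..π, cos ψ * arcsin (s₀ * cos ψ)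

/-- The statistic stays in the disc where the calibration is defined. -/
def S_BND2 : Prop := ∀ s₀ : ℝ, 0 < s₀ → s₀ ^ 2 ≤ 9 / 10 → ∃ N₀ : ℕ, ∀ N ≥ N₀, ∀ g : ℝ → ℝ,
  (∀ θ, g (θ + π) = -g θ) → (∀ θ, |g θ| ≤ arcsin s₀) →
  (∀ θ θ', |g θ - g θ'| ≤ s₀ * |θ - θ'|) →
  (∀ θ θ', |g θ - g θ'| ≤ 2 * arcsin (s₀ * |sin ((θ - θ') / 2)|)) →
  ∀ φ, π / N * ∑ j ∈ range N, cos (th N j - φ) * g (th N j)
    < π / N * ∑ j ∈ range N, cos (th N j - φ) * arcsin (593 / 625 * cos (th N j - φ))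

/-- The pointwise inequality in a chart. -/
def S_PTW2 : Prop := ∀ ε > 0, ∃ N₀ : ℕ, ∀ N ≥ N₀, ∀ (X1 X2 : ℝ × ℝ → ℝ) (g : ℕ → ℝ × ℝ → ℝ)
  (p : ℝ × ℝ) (E F G : ℝ), 0 < E → 0 < E * G - F ^ 2 → DifferentiableAt ℝ X1 p →
  DifferentiableAt ℝ X2 p → (∀ j, DifferentiableAt ℝ (g j) p) →
  (∀ j, ∀ v : ℝ × ℝ, (fderiv ℝ (g j) p v) ^ 2 ≤ E * v.1 ^ 2 + 2 * F * v.1 * v.2 + G * v.2 ^ 2) →
  (∀ q, X1 q ^ 2 + X2 q ^ 2 < (593 / 625) ^ 2) →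
  (∀ q, Z1 N (X1 q) (X2 q) = π / N * ∑ j ∈ range N, cos (th N j) * g j q) →
  (∀ q, Z2 N (X1 q) (X2 q) = π / N * ∑ j ∈ range N, sin (th N j) * g j q) →
  ∑ j ∈ range N, π / N * jac (fun q => hh (th N j) (X1 q) (X2 q)) (g j) p
    - jac (fun q => X1 q * kk (X1 q) (X2 q)) X2 p
    + jac (fun q => X2 q * kk (X1 q) (X2 q)) X1 p ≤ (1 + ε) * √(E * G - F ^ 2)

/-- The cap theorem. -/
def S_CAP2 : Prop := ∀ (M : Type) [MetricSpace M] (S : OrientedSurface M) (s₀ : ℝ), 0 < s₀ →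
  s₀ ^ 2 ≤ 9 / 10 →
  (∀ s t : ℝ, 2 * arcsin (s₀ * |sin ((s - t) / 2)|) ≤
    dist (S.boundary (s : AddCircle (2 * π))) (S.boundary (t : AddCircle (2 * π)))) →
  2 * π * (1 - √(1 - s₀ ^ 2)) ≤ S.area

end Pool.Agent.K9h55.FA
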