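import Pool.Agent.N46.CAP_EXT
import Pool.Agent.K9h55.FA.Stm

/-! # Discs in the hemisphere: extension of the boundary functions

Adapted from `Pool/Agent/N46/CAP_EXT.lean`; new is the sharp bound of the dependence on the
direction. -/

set_option autoImplicit false

namespace Pool.Agent.K9h55.FA.Ext

open Real
open Pool.Agent.N46.CAP_EXT

lemma b_theta2 (s₀ : ℝ) (h0 : 0 ≤ s₀) (h1 : s₀ ≤ 1) (θ θ' t : ℝ) :
    b s₀ θ t ≤ b s₀ θ' t + 2 * arcsin (s₀ * |sin ((θ - θ') / 2)|) := by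
  rw [b_comm s₀ θ, b_comm s₀ θ']
  exact b_t s₀ h0 h1 t θ θ'

lemma f_theta2 {M : Type} [MetricSpace M] (β : ℝ → M) (s₀ : ℝ) (h0 : 0 ≤ s₀)
    (h1 : s₀ ≤ 1) (θ θ' : ℝ) (x : M) :
    f β s₀ θ x ≤ f β s₀ θ' x + 2 * arcsin (s₀ * |sin ((θ - θ') / 2)|) := by
  apply inf_le _ _ _ (f_bdd β s₀ h0 θ x)
  intro t
  linarith [b_theta2 s₀ h0 h1 θ θ' t]

theorem main0 {M : Type} [MetricSpace M] (β : ℝ → M) (s₀ : ℝ) (h0 : 0 ≤ s₀) (h1 : s₀ ≤ 1)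
    (h : ∀ s t : ℝ, 2 * arcsin (s₀ * |sin ((s - t) / 2)|) ≤ dist (β s) (β t)) :
    ∃ G : ℝ → M → ℝ, (∀ θ x y, |G θ x - G θ y| ≤ dist x y) ∧ (∀ θ x, G (θ + π) x = -G θ x) ∧
    (∀ θ x, |G θ x| ≤ arcsin s₀) ∧ (∀ θ θ' x, |G θ x - G θ' x| ≤ s₀ * |θ - θ'|) ∧
    (∀ θ θ' x, |G θ x - G θ' x| ≤ 2 * arcsin (s₀ * |sin ((θ - θ') / 2)|)) ∧
    ∀ θ t : ℝ, G θ (β t) = arcsin (s₀ * cos (θ - t)) := by
  have key : ∀ θ θ' x, |(f β s₀ θ x - f β s₀ (θ + π) x) / 2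
      - (f β s₀ θ' x - f β s₀ (θ' + π) x) / 2| ≤ 2 * arcsin (s₀ * |sin ((θ - θ') / 2)|) := by
    intro θ θ' x
    rw [abs_le]
    have a1 := f_theta2 β s₀ h0 h1 θ θ' x
    have a2 := f_theta2 β s₀ h0 h1 θ' θ x
    have a3 := f_theta2 β s₀ h0 h1 (θ + π) (θ' + π) x
    have a4 := f_theta2 β s₀ h0 h1 (θ' + π) (θ + π) x
    have e1 : |sin ((θ' - θ) / 2)| = |sin ((θ - θ') / 2)| := by
      rw [show (θ' - θ) / 2 = -((θ - θ') / 2) by ring, sin_neg, abs_neg]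
    rw [show θ + π - (θ' + π) = θ - θ' by ring] at a3
    rw [show θ' + π - (θ + π) = θ' - θ by ring, e1] at a4
    rw [e1] at a2
    constructor <;> linarith
  refine ⟨fun θ x => (f β s₀ θ x - f β s₀ (θ + π) x) / 2, ?_, ?_, ?_, ?_, ?_, ?_⟩
  · intro θ x y
    rw [abs_le]
    have a1 := f_lip β s₀ h0 θ x y
    have a2 := f_lip β s₀ h0 θ y x
    have a3 := f_lip β s₀ h0 (θ + π) x y
    have a4 := f_lip β s₀ h0 (θ + π) y x
    rw [dist_comm y x] at a2 a4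
    constructor <;> dsimp only <;> linarith
  · intro θ x
    dsimp only
    rw [f_two]
    ring
  · intro θ x
    dsimp only
    rw [abs_le]
    have a1 := f_pi β s₀ h0 θ x
    have a2 := f_pi' β s₀ h0 θ x
    constructor <;> linarith
  · intro θ θ' x
    exact (key θ θ' x).trans (two_arcsin_le s₀ h0 h1 _)
  · intro θ θ' x
    exact key θ θ' x
  · intro θ t
    dsimp only
    rw [f_bound β s₀ h0 h1 h, f_bound β s₀ h0 h1 h, b_pi]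
    unfold b
    ring

theorem main : Pool.Agent.K9h55.FA.S_EXT2 := by
  intro M _ β s₀ h0 h1 h
  exact main0 (fun t : ℝ => β (t : AddCircle (2 * π))) s₀ h0 h1 h

end Pool.Agent.K9h55.FA.Ext
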