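import Pool.Agent.K9h55.FA.Stm

/-! # Discs in the hemisphere: sharp integral bound for antiperiodic functions -/

set_option autoImplicit false

namespace Pool.Agent.K9h55.FA.Gin

open Real

theorem main : Pool.Agent.K9h55.FA.S_GIN2 := by
  intro s₀ hs0 hs1 g hanti hlip hsharp φ
  have hpi := Real.pi_pos
  have hg : Continuous g := by
    have : LipschitzWith (Real.toNNReal s₀) g := by
      refine LipschitzWith.of_dist_le_mul fun x y => ?_
      rw [Real.dist_eq, Real.dist_eq, Real.coe_toNNReal _ hs0.le]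
      exact hlip x y
    exact this.continuous
  -- periodicity
  have hper : Function.Periodic (fun θ => cos (θ - φ) * g θ) π := by
    intro θ
    simp only
    rw [hanti, show θ + π - φ = (θ - φ) + π by ring, cos_add_pi]
    ring
  have hper2 : Function.Periodic (fun ψ => cos ψ * arcsin (s₀ * cos ψ)) π := by
    intro θ
    simp only
    rw [cos_add_pi, mul_neg, arcsin_neg]
    ring
  have e1 : ∫ θ in (0 : ℝ)..π, cos (θ - φ) * g θ =
      ∫ θ in (φ + -(π / 2))..(φ + π / 2), cos (θ - φ) * g θ := by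
    have := hper.intervalIntegral_add_eq 0 (φ + -(π / 2))
    rw [zero_add, show φ + -(π / 2) + π = φ + π / 2 by ring] at this
    exact this
  have e2 : ∫ θ in (φ + -(π / 2))..(φ + π / 2), cos (θ - φ) * g θ =
      ∫ ψ in (-(π / 2))..(π / 2), cos ψ * g (φ + ψ) := by
    rw [← intervalIntegral.integral_comp_add_left (fun θ => cos (θ - φ) * g θ) φ]
    refine intervalIntegral.integral_congr fun ψ _ => ?_
    rw [show φ + ψ - φ = ψ by ring]
  have f1 : ∫ ψ in (0 : ℝ)..π, cos ψ * arcsin (s₀ * cos ψ) =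
      ∫ ψ in (-(π / 2))..(π / 2), cos ψ * arcsin (s₀ * cos ψ) := by
    have := hper2.intervalIntegral_add_eq 0 (-(π / 2))
    rw [zero_add, show -(π / 2) + π = π / 2 by ring] at this
    exact this
  have split : ∀ u : ℝ → ℝ, Continuous u → ∫ ψ in (-(π / 2))..(π / 2), cos ψ * u ψ =
      ∫ ψ in (0 : ℝ)..(π / 2), cos ψ * (u ψ + u (-ψ)) := by
    intro u hu
    have hc1 : Continuous fun ψ => cos ψ * u ψ := by fun_prop
    have hc2 : Continuous fun ψ => cos ψ * u (-ψ) := by fun_prop
    have h1 : ∫ ψ in (-(π / 2))..0, cos ψ * u ψ =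
        ∫ ψ in (0 : ℝ)..(π / 2), cos ψ * u (-ψ) := by
      have := intervalIntegral.integral_comp_neg (a := 0) (b := π / 2)
        (fun ψ => cos ψ * u ψ)
      simp only [cos_neg, neg_zero] at this
      exact this.symm
    rw [← intervalIntegral.integral_add_adjacent_intervals (b := 0)
      (hc1.intervalIntegrable _ _) (hc1.intervalIntegrable _ _), h1,
      ← intervalIntegral.integral_add (hc2.intervalIntegrable _ _) (hc1.intervalIntegrable _ _)]
    refine intervalIntegral.integral_congr fun ψ _ => ?_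
    ring
  have hu1 : Continuous fun ψ => g (φ + ψ) := by fun_prop
  have hu2 : Continuous fun ψ => arcsin (s₀ * cos ψ) := by fun_prop
  rw [e1, e2, f1, split _ hu1, split _ hu2]
  have hc3 : Continuous fun ψ => cos ψ * (g (φ + ψ) + g (φ + -ψ)) := by fun_prop
  have hc4 : Continuous fun ψ => cos ψ * (arcsin (s₀ * cos ψ) + arcsin (s₀ * cos (-ψ))) := by
    fun_prop
  refine intervalIntegral.integral_mono_on (by positivity) (hc3.intervalIntegrable _ _)
    (hc4.intervalIntegrable _ _) fun ψ hψ => ?_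
  have hcos : 0 ≤ cos ψ := Real.cos_nonneg_of_neg_pi_div_two_le_of_le (by linarith [hψ.1]) hψ.2
  refine mul_le_mul_of_nonneg_left ?_ hcos
  have h1 := (abs_le.1 (hsharp (φ + ψ) (φ + -ψ + π))).2
  rw [hanti] at h1
  have h2 : |sin ((φ + ψ - (φ + -ψ + π)) / 2)| = cos ψ := by
    rw [show (φ + ψ - (φ + -ψ + π)) / 2 = -(π / 2 - ψ) by ring, sin_neg, abs_neg,
      sin_pi_div_two_sub, abs_of_nonneg hcos]
  rw [h2] at h1
  rw [cos_neg]
  linarith

end Pool.Agent.K9h55.FA.Gin
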