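import Pool.Agent.N42.CAP_PTW
import Pool.Agent.K9h55.FA.Stm

/-! # Discs in the hemisphere: the pointwise inequality in a chart

Adapted from `Pool/Agent/N42/CAP_PTW.lean`. -/

set_option autoImplicit false

namespace Pool.Agent.K9h55.FA.Ptw

open Real MeasureTheory Set Filter Topology Finset
open Pool.Agent.W664.Fill (jac)
open Pool.Agent.N979.CAP
open Pool.Agent.N42.CAP
open Pool.Agent.K9h55.FA

theorem main (h : S_CAR2) : S_PTW2 := by
  intro ε hε
  obtain ⟨N₀, hN₀⟩ := h ε hε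
  refine ⟨max N₀ 1, ?_⟩
  intro N hN X1 X2 g p E F G hE hD hX1 hX2 hg hgb hr hZ1 hZ2
  have hN1 : 1 ≤ N := (le_max_right _ _).trans hN
  have hNpos : (0 : ℝ) < N := by exact_mod_cast hN1
  have hπ := Real.pi_pos
  obtain ⟨A, hA⟩ : ∃ A, A = fderiv ℝ X1 p := ⟨_, rfl⟩
  obtain ⟨B, hB⟩ : ∃ B, B = fderiv ℝ X2 p := ⟨_, rfl⟩
  obtain ⟨g', hg'⟩ : ∃ g', g' = fun j => fderiv ℝ (g j) p := ⟨_, rfl⟩
  have dA : HasFDerivAt X1 A p := by rw [hA]; exact hX1.hasFDerivAt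
  have dB : HasFDerivAt X2 B p := by rw [hB]; exact hX2.hasFDerivAt
  have dg : ∀ j, HasFDerivAt (g j) (g' j) p := fun j => by rw [hg']; exact (hg j).hasFDerivAt
  obtain ⟨x, hx⟩ : ∃ x, x = X1 p := ⟨_, rfl⟩
  obtain ⟨y, hy⟩ : ∃ y, y = X2 p := ⟨_, rfl⟩
  have hrp := hr p
  rw [← hx, ← hy] at hrp
  have hr1 : X1 p ^ 2 + X2 p ^ 2 < 1 := by rw [← hx, ← hy]; norm_num at hrp ⊢; linarith
  -- the vectors of the frame
  obtain ⟨Δ, hΔ⟩ : ∃ Δ, Δ = √(E * G - F ^ 2) := ⟨_, rfl⟩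
  have hΔ0 : 0 < Δ := by rw [hΔ]; exact Real.sqrt_pos.2 hD
  have hΔ2 : Δ ^ 2 = E * G - F ^ 2 := by rw [hΔ]; exact Real.sq_sqrt hD.le
  obtain ⟨e, he⟩ : ∃ e, e = √E := ⟨_, rfl⟩
  have he0 : 0 < e := by rw [he]; exact Real.sqrt_pos.2 hE
  have he2 : e ^ 2 = E := by rw [he]; exact Real.sq_sqrt hE.le
  obtain ⟨va, hva⟩ : ∃ va : ℝ × ℝ, va = (1 / e, 0) := ⟨_, rfl⟩
  obtain ⟨vb, hvb⟩ : ∃ vb : ℝ × ℝ, vb = (-F / (e * Δ), E / (e * Δ)) := ⟨_, rfl⟩
  have hdet : ∀ α β : ℝ × ℝ →L[ℝ] ℝ, α va * β vb - α vb * β va =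
      (α (1, 0) * β (0, 1) - α (0, 1) * β (1, 0)) / Δ := by
    intro α β
    rw [lin α va, lin α vb, lin β va, lin β vb, hva, hvb]
    simp only
    rw [← he2]
    field_simp
    ring
  have hbd : ∀ j, (g' j va) ^ 2 + (g' j vb) ^ 2 ≤ 1 := by
    intro j
    have h1 := dual_bound (a := g' j (1, 0)) (b := g' j (0, 1)) hE hD (fun v w => by
      have h2 := hgb j (v, w)
      have h3 : g' j (v, w) = v * g' j (1, 0) + w * g' j (0, 1) := lin (g' j) (v, w)
      have h4 : fderiv ℝ (g j) p (v, w) = g' j (v, w) := by rw [hg']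
      rw [h4, h3] at h2
      calc (g' j (1, 0) * v + g' j (0, 1) * w) ^ 2 =
            (v * g' j (1, 0) + w * g' j (0, 1)) ^ 2 := by ring
        _ ≤ _ := h2)
    rw [lin (g' j) va, lin (g' j) vb, hva, hvb]
    simp only
    rw [← hΔ2, ← he2] at h1
    rw [← he2]
    generalize g' j (1, 0) = a at *
    generalize g' j (0, 1) = b at *
    have h5 : (1 / e * a + 0 * b) ^ 2 + (-F / (e * Δ) * a + e ^ 2 / (e * Δ) * b) ^ 2 =
        (Δ ^ 2 * a ^ 2 + (F * a - e ^ 2 * b) ^ 2) / (e ^ 2 * Δ ^ 2) := by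
      field_simp
      ring
    rw [h5, div_le_one (by positivity)]
    exact h1
  -- the differentiated identities
  have hid : ∀ ρ : ℝ → ℝ, (∀ q, π / N * ∑ j ∈ range N, ρ (th N j) *
        arcsin (dt (X1 q) (X2 q) (th N j)) = π / N * ∑ j ∈ range N, ρ (th N j) * g j q) →
      ∀ v : ℝ × ℝ, ∑ j ∈ range N, ρ (th N j) / √(1 - dt x y (th N j) ^ 2)
        * (cos (th N j) * A v + sin (th N j) * B v) = ∑ j ∈ range N, ρ (th N j) * g' j v := by
    intro ρ hρ v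
    have h1 := d_Z dA dB hr1 N ρ
    have h2 : HasFDerivAt (fun q => π / N * ∑ j ∈ range N, ρ (th N j) * g j q)
        ((π / N) • ∑ j ∈ range N, ρ (th N j) • g' j) p := by
      refine HasFDerivAt.const_mul ?_ (π / N)
      exact HasFDerivAt.fun_sum fun j _ => (dg j).const_mul _
    rw [show (fun q => π / N * ∑ j ∈ range N, ρ (th N j) *
      arcsin (dt (X1 q) (X2 q) (th N j))) = fun q => π / N * ∑ j ∈ range N, ρ (th N j) * g j q from
      funext hρ] at h1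
    have h3 := congrArg (fun L : ℝ × ℝ →L[ℝ] ℝ => L v) (h1.unique h2)
    simp only [ContinuousLinearMap.smul_apply, ContinuousLinearMap.sum_apply, smul_eq_mul,
      ContinuousLinearMap.add_apply] at h3
    have h4 : (π / N : ℝ) ≠ 0 := by positivity
    have h5 := mul_left_cancel₀ h4 h3
    rw [← h5, hx, hy]
    refine Finset.sum_congr rfl fun j _ => ?_
    ring
  have hc := hid cos hZ1
  have hs := hid sin hZ2
  have key := hN₀ N ((le_max_left _ _).trans hN) x y hrp.le (fun j => g' j va) (fun j => g' j vb)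
    hbd (A va) (A vb) (B va) (B vb) (hc va) (hs va) (hc vb) (hs vb)
  -- the left side
  have hj1 : ∀ j, jac (fun q => hh (th N j) (X1 q) (X2 q)) (g j) p =
      2 / π / ((1 - dt x y (th N j) ^ 2) * √(1 - dt x y (th N j) ^ 2)) *
        ((sin (th N j) - y * dt x y (th N j)) *
          (A (1, 0) * g' j (0, 1) - A (0, 1) * g' j (1, 0)) -
        (cos (th N j) - x * dt x y (th N j)) *
          (B (1, 0) * g' j (0, 1) - B (0, 1) * g' j (1, 0))) := by
    intro j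
    unfold jac
    rw [(d_hh dA dB (th N j) (dt_sq hr1 _)).fderiv, (dg j).fderiv, ← hx, ← hy]
    simp only [ContinuousLinearMap.smul_apply, smul_eq_mul, ContinuousLinearMap.sub_apply]
    ring
  obtain ⟨c, hcdef⟩ : ∃ c, c = √(1 - x ^ 2 - y ^ 2) := ⟨_, rfl⟩
  have h1xy : 0 < 1 - x ^ 2 - y ^ 2 := by rw [hx, hy]; linarith
  have hc0 : 0 < c := by rw [hcdef]; exact Real.sqrt_pos.2 h1xy
  have hc2 : c ^ 2 = 1 - x ^ 2 - y ^ 2 := by rw [hcdef]; exact Real.sq_sqrt h1xy.le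
  have hj2 : - jac (fun q => X1 q * kk (X1 q) (X2 q)) X2 p
      + jac (fun q => X2 q * kk (X1 q) (X2 q)) X1 p =
      - ((A (1, 0) * B (0, 1) - A (0, 1) * B (1, 0)) / c) := by
    unfold jac
    rw [(d_xk dA dB dA hr1).fderiv, (d_xk dA dB dB hr1).fderiv, dA.fderiv, dB.fderiv, ← hx, ← hy,
      ← hcdef]
    simp only [ContinuousLinearMap.smul_apply, smul_eq_mul, ContinuousLinearMap.add_apply]
    have h6 : x ^ 2 + y ^ 2 = 1 - c ^ 2 := by rw [hc2]; ring
    have h7 : 2 * (1 + c)⁻¹ + (x ^ 2 + y ^ 2) / (c * (1 + c) ^ 2) = 1 / c := by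
      rw [h6]
      field_simp
      ring
    have h8 : (A (1, 0) * B (0, 1) - A (0, 1) * B (1, 0)) / c =
      (2 * (1 + c)⁻¹ + (x ^ 2 + y ^ 2) / (c * (1 + c) ^ 2)) *
        (A (1, 0) * B (0, 1) - A (0, 1) * B (1, 0)) := by rw [h7]; ring
    rw [h8]
    ring
  have hfin : ∑ j ∈ range N, π / N * jac (fun q => hh (th N j) (X1 q) (X2 q)) (g j) p
      - jac (fun q => X1 q * kk (X1 q) (X2 q)) X2 p
      + jac (fun q => X2 q * kk (X1 q) (X2 q)) X1 p =
      Δ * (π / N * ∑ j ∈ range N,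
        2 / π / ((1 - dt x y (th N j) ^ 2) * √(1 - dt x y (th N j) ^ 2))
        * ((sin (th N j) - y * dt x y (th N j)) * (A va * g' j vb - A vb * g' j va)
          - (cos (th N j) - x * dt x y (th N j)) * (B va * g' j vb - B vb * g' j va))
      - (A va * B vb - A vb * B va) / √(1 - x ^ 2 - y ^ 2)) := by
    rw [sub_add, sub_eq_add_neg, neg_sub', sub_neg_eq_add, hj2, hdet, ← hcdef, mul_sub,
      Finset.mul_sum, Finset.mul_sum]
    simp_rw [hdet, hj1]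
    rw [sub_eq_add_neg]
    congr 1
    · refine Finset.sum_congr rfl fun j _ => ?_
      field_simp
    · field_simp
  rw [hfin, ← hΔ, mul_comm (1 + ε)]
  exact mul_le_mul_of_nonneg_left key hΔ0.le

end Pool.Agent.K9h55.FA.Ptw
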