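import Mathlib
import Pool.Agent.K9h55.FA.Asm
import Pool.Agent.N262.CAP_INT
import Pool.Agent.N438.CAP_RIE
import Pool.Agent.N438.CAP_BES
import Pool.Agent.K9h55.FA.Low
import Pool.Agent.K9h55.FA.Num
import Pool.Agent.K9h55.FA.Idl
import Pool.Agent.K9h55.FA.Pol
import Pool.Agent.K9h55.FA.Car
import Pool.Agent.K9h55.FA.Ptw
import Pool.Agent.N222.CAP_EXI
import Pool.Agent.N495.CAP_MON
import Pool.Agent.K9h55.FA.Ext
import Pool.Agent.K9h55.FA.Gin
import Pool.Agent.K9h55.FA.Bnd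
import Pool.Agent.N296.CAP_FLX
import Pool.Agent.N717.CAP_LIP

/-! # Discs in the hemisphere: the cap theorem up to `s₀² ≤ 9 / 10` -/

set_option autoImplicit false

namespace Pool.Agent.K9h55.FA

theorem sNUM2 : S_NUM2 := Num.main Low.main

theorem sPTW2 : S_PTW2 :=
  Ptw.main (Car.main (Pol.main
    Pool.Agent.N262.CAP_INT.main Pool.Agent.N438.CAPRIE.main sNUM2
    (Idl.main Pool.Agent.N262.CAP_INT.main Pool.Agent.N438.CAPRIE.main
      Pool.Agent.N438.CAPBES.main sNUM2)))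

theorem sBND2 : S_BND2 := Bnd.main Pool.Agent.N438.CAPRIE.main Gin.main

theorem sCAP2 : S_CAP2 :=
  Asm.cap Pool.Agent.N262.CAP_INT.main Pool.Agent.N222.CAP_EXI.main Pool.Agent.N495.CAPMON.main
    Ext.main sBND2 Pool.Agent.N296.CAPFLX.main Pool.Agent.N717.CAP_LIP.main sPTW2

end Pool.Agent.K9h55.FA
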