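import Pool.Agent.N999.CAP_BND
import Pool.Agent.K9h55.FA.Stm

/-! # Discs in the hemisphere: the statistic stays in the disc of the calibration -/

set_option autoImplicit false

namespace Pool.Agent.K9h55.FA.Bnd

open Real MeasureTheory Set Finset
open Pool.Agent.N979.CAP
open Pool.Agent.K9h55.FA

lemma arcsin_gap {a b : ℝ} (hab : a ≤ b) (ha : -1 ≤ a) (hb : b ≤ 1) :
    b - a ≤ arcsin b - arcsin a := by
  have h1 : sin (arcsin b) = b := sin_arcsin (by linarith) hb
  have h2 : sin (arcsin a) = a := sin_arcsin ha (by linarith)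
  have h3 : arcsin a ≤ arcsin b := monotone_arcsin hab
  have h4 := Real.abs_sin_sub_sin_le (arcsin b) (arcsin a)
  rw [h1, h2, abs_of_nonneg (by linarith), abs_of_nonneg (by linarith)] at h4
  exact h4

lemma gap {s₀ s₁ : ℝ} (h0 : 0 ≤ s₀) (h01 : s₀ ≤ s₁) (h1 : s₁ ≤ 1) :
    (s₁ - s₀) * (π / 2) ≤ (∫ ψ in (0 : ℝ)..π, cos ψ * arcsin (s₁ * cos ψ))
      - ∫ ψ in (0 : ℝ)..π, cos ψ * arcsin (s₀ * cos ψ) := by
  have hpi := Real.pi_pos
  have hc : ∀ s : ℝ, Continuous fun ψ => cos ψ * arcsin (s * cos ψ) := fun s => by fun_prop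
  rw [← intervalIntegral.integral_sub ((hc _).intervalIntegrable _ _)
    ((hc _).intervalIntegrable _ _)]
  have h2 : ∫ ψ in (0 : ℝ)..π, (s₁ - s₀) * cos ψ ^ 2 = (s₁ - s₀) * (π / 2) := by
    rw [intervalIntegral.integral_const_mul, integral_cos_sq]
    simp
  rw [← h2]
  refine intervalIntegral.integral_mono_on hpi.le
    (Continuous.intervalIntegrable (by fun_prop) _ _)
    (((hc _).sub (hc _)).intervalIntegrable _ _) fun ψ _ => ?_
  have hc1 := Real.cos_le_one ψ
  have hc2 := Real.neg_one_le_cos ψ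
  rcases le_total 0 (cos ψ) with h | h
  · have h3 := arcsin_gap (a := s₀ * cos ψ) (b := s₁ * cos ψ)
      (mul_le_mul_of_nonneg_right h01 h) (by nlinarith) (by nlinarith)
    nlinarith
  · have h3 := arcsin_gap (a := s₁ * cos ψ) (b := s₀ * cos ψ)
      (mul_le_mul_of_nonpos_right h01 h) (by nlinarith) (by nlinarith)
    nlinarith

theorem main (hR : S_RIE) (hG : S_GIN2) : S_BND2 := by
  intro s₀ hs0 hs1
  have hs2 : s₀ < 1 := by nlinarith
  have hs3 : s₀ ≤ 0.948684 := by
    by_contra h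
    push Not at h
    norm_num at h
    nlinarith
  obtain ⟨N₁, hN₁⟩ := hR 0 le_rfl (fun ψ _ => cos ψ * arcsin (593 / 625 * cos ψ))
    (by
      have : Continuous (fun p : ℝ × ℝ => cos p.1 * arcsin (593 / 625 * cos p.1)) := by
        fun_prop
      exact this.continuousOn)
    (fun ψ _ => by
      simp only [Real.cos_add_pi]
      rw [mul_neg, Real.arcsin_neg]
      ring) 0.00008 (by norm_num)
  refine ⟨max N₁ 500000, fun N hN g hg1 hg2 hg3 hg4 φ => ?_⟩
  have hNa : N₁ ≤ N := (le_max_left _ _).trans hN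
  have hNb : 500000 ≤ N := (le_max_right _ _).trans hN
  have hNc : (500000 : ℝ) ≤ N := by exact_mod_cast hNb
  have hR1 := hN₁ N hNa 0 (by simp) φ
  have hL := Pool.Agent.N999.CAPBND.riem (fun θ => cos (θ - φ) * g θ) 4 (by norm_num) (by
    intro x y
    have e : cos (x - φ) * g x - cos (y - φ) * g y
        = (cos (x - φ) - cos (y - φ)) * g x + cos (y - φ) * (g x - g y) := by ring
    have h1 : |cos (x - φ) - cos (y - φ)| ≤ |x - y| := by
      have := Real.abs_cos_sub_cos_le (x - φ) (y - φ)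
      simpa using this
    have h2 : |g x| ≤ 2 := by
      have h3 := hg2 x
      have h4 := Real.arcsin_le_pi_div_two s₀
      have h5 := Real.pi_lt_four
      linarith
    have h3 : |cos (y - φ)| ≤ 1 := Real.abs_cos_le_one _
    have h4 := hg3 x y
    rw [e]
    refine (abs_add_le _ _).trans ?_
    rw [abs_mul, abs_mul]
    have h5 := abs_nonneg (x - y)
    have h6 := abs_nonneg (g x)
    have h7 : |cos (x - φ) - cos (y - φ)| * |g x| ≤ |x - y| * 2 :=
      mul_le_mul h1 h2 h6 h5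
    have h8 : |cos (y - φ)| * |g x - g y| ≤ 1 * (s₀ * |x - y|) :=
      mul_le_mul h3 h4 (abs_nonneg _) (by norm_num)
    nlinarith) N (by omega)
  have hI := hG s₀ hs0 hs2 g hg1 hg3 hg4 φ
  have hgap := gap (s₀ := s₀) (s₁ := 593 / 625) hs0.le (by norm_num at hs3 ⊢; linarith)
    (by norm_num)
  have hpi : π ^ 2 ≤ 10 := by
    have := Real.pi_lt_d2
    nlinarith [Real.pi_pos]
  have hq : 4 * π ^ 2 / (N : ℝ) ≤ 0.00008 := by
    rw [div_le_iff₀ (by linarith)]
    nlinarith
  have hp3 : 3.14 < π := Real.pi_gt_d2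
  have hgap2 : (0.000116 : ℝ) * (3.14 / 2) ≤ (593 / 625 - s₀) * (π / 2) := by
    apply mul_le_mul
    · norm_num at hs3 ⊢
      linarith
    · linarith
    · norm_num
    · norm_num at hs3 ⊢
      linarith
  have a1 := (abs_le.1 hL).2
  have a2 := (abs_le.1 hR1).1
  have e2 : ∀ j : ℕ, th N j = π * j / N := fun j => rfl
  simp only [e2] at a1 ⊢
  norm_num at a1 a2 hI hq hgap hgap2 ⊢
  linarith

end Pool.Agent.K9h55.FA.Bnd
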