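import Mathlib
import Pool.Agent.N979.CAP.Col
import Pool.Agent.K9h55.FA.Stm

/-! # Fillings of the circle which are the round hemisphere outside a disc in any position -/

set_option autoImplicit false

namespace Pool.Agent.K9h55.FA

open Real MeasureTheory Set Filter Topology Finset
open Pool.Agent.H115R3.Filling
open Pool.Agent.N979.CAP

/-- Space. -/
abbrev E3 : Type := EuclideanSpace ℝ (Fin 3)

/-- The circle of radius `ρ₀` and centre `c` on the unit sphere; `e₁`, `e₂`, `c` is an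
orthonormal basis of the space. -/
noncomputable def circ (c e₁ e₂ : E3) (ρ₀ s : ℝ) : E3 :=
  cos ρ₀ • c + sin ρ₀ • (cos s • e₁ + sin s • e₂)

/-- The closed upper unit hemisphere without the open disc of radius `ρ₀` and centre `c`. -/
def Outside (c : E3) (ρ₀ : ℝ) : Set E3 :=
  {x | ‖x‖ = 1 ∧ 0 ≤ x.ofLp 2 ∧ inner ℝ x c ≤ cos ρ₀}

/-- The surface `S` is the closed upper unit hemisphere in which the disc of radius `ρ₀` and
centre `c` is replaced by the surface `S₀`.

* `emb`: the faces of `S₀` are faces of `S`;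
* `area_outside`: the area of the other faces is the area `2π cos ρ₀` of the hemisphere without
  the disc;
* `pos`: the points of the hemisphere outside the disc are points of `S`; the equator is the
  boundary of `S`, and the circle around the disc is the boundary of `S₀`;
* `dist_le`: two points of the hemisphere outside the disc that are joined by an arc of a great
  circle outside the open disc have distance in `S` at most the length of this arc. -/
structure DiscReplaced {M : Type} [MetricSpace M] (S S₀ : OrientedSurface M)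
    (c e₁ e₂ : E3) (ρ₀ : ℝ) where
  emb : Fin S₀.faces ↪ Fin S.faces
  chart_emb : ∀ i, S.chart (emb i) = S₀.chart i
  metric_emb : ∀ i, S.metric (emb i) = S₀.metric i
  area_outside : ∑ i ∈ Finset.univ.filter (fun i => i ∉ Set.range emb), (S.metric i).area
    = 2 * π * cos ρ₀
  pos : E3 → M
  pos_equator : ∀ φ : ℝ, pos (!₂[cos φ, sin φ, 0]) = S.boundary (φ : AddCircle (2 * π))
  pos_circ : ∀ s : ℝ, pos (circ c e₁ e₂ ρ₀ s) = S₀.boundary (s : AddCircle (2 * π))
  dist_le : ∀ x ∈ Outside c ρ₀, ∀ y ∈ Outside c ρ₀,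
    (∀ t ∈ Set.Icc (0 : ℝ) 1, inner ℝ ((1 - t) • x + t • y) c
      ≤ cos ρ₀ * ‖(1 - t) • x + t • y‖) →
    dist (pos x) (pos y) ≤ InnerProductGeometry.angle x y

/-! ### Geometry of the sphere -/

lemma angle3 {p q u : E3} {α β n : ℝ} (hα : 0 ≤ α) (hβ : 0 ≤ β) (hn : 0 < n)
    (hu : n • u = α • p - β • q) (hp : p ≠ 0) (hu0 : u ≠ 0) :
    InnerProductGeometry.angle u p + InnerProductGeometry.angle p q
      + InnerProductGeometry.angle q (-u) = π := by
  rw [InnerProductGeometry.angle_neg_right, InnerProductGeometry.angle_comm q u]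
  have key : InnerProductGeometry.angle u q = InnerProductGeometry.angle u p
      + InnerProductGeometry.angle p q := by
    rcases hα.eq_or_lt with h | h
    · have h1 : u = (-(β / n)) • q := by
        have h2 : n • u = (-β) • q := by
          rw [hu, ← h]; simp
        have h3 : u = n⁻¹ • (n • u) := by
          rw [smul_smul, inv_mul_cancel₀ hn.ne', one_smul]
        rw [h3, h2, smul_smul]
        congr 1
        ring
      have hβ0 : 0 < β := by
        rcases hβ.eq_or_lt with h4 | h4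
        · exfalso
          apply hu0
          rw [h1, ← h4]
          simp
        · exact h4
      have h5 : -(β / n) < 0 := by
        have : 0 < β / n := by positivity
        linarith
      have hq0 : q ≠ 0 := by
        rintro rfl
        apply hu0
        rw [h1]; simp
      rw [h1, InnerProductGeometry.angle_smul_left_of_neg _ _ h5,
        InnerProductGeometry.angle_smul_left_of_neg _ _ h5,
        InnerProductGeometry.angle_neg_left, InnerProductGeometry.angle_neg_left,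
        InnerProductGeometry.angle_self hq0, InnerProductGeometry.angle_comm p q]
      ring
    · apply InnerProductGeometry.angle_eq_angle_add_add_angle_add_of_mem_span hp
      rw [Submodule.mem_span_pair]
      refine ⟨Real.toNNReal (n / α), Real.toNNReal (β / α), ?_⟩
      have h1 : α • p = n • u + β • q := by rw [hu]; abel
      have h2 : p = α⁻¹ • (α • p) := by
        rw [smul_smul, inv_mul_cancel₀ h.ne', one_smul]
      rw [NNReal.smul_def, NNReal.smul_def, Real.coe_toNNReal _ (by positivity),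
        Real.coe_toNNReal _ (by positivity)]
      conv_rhs => rw [h2, h1, smul_add, smul_smul, smul_smul]
      congr 2 <;> ring
  rw [key]
  ring

/-- Points `A p - B q` are outside the disc. -/
lemma cone_outside {p q c : E3} {κ A B : ℝ} (hp : ‖p‖ = 1) (hq : ‖q‖ = 1)
    (hpc : inner ℝ p c = κ) (hqc : inner ℝ q c = κ) (hκ : 0 ≤ κ) (hA : 0 ≤ A) (hB : 0 ≤ B) :
    inner ℝ (A • p - B • q) c ≤ κ * ‖A • p - B • q‖ := by
  rw [inner_sub_left, inner_smul_left, inner_smul_left, hpc, hqc]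
  simp only [conj_trivial]
  have h1 := norm_sub_norm_le (A • p) (B • q)
  rw [norm_smul, norm_smul, hp, hq, Real.norm_of_nonneg hA, Real.norm_of_nonneg hB, mul_one,
    mul_one] at h1
  nlinarith

lemma circ_norm {c e₁ e₂ : E3} (hc : ‖c‖ = 1) (h1 : ‖e₁‖ = 1) (h2 : ‖e₂‖ = 1)
    (hc1 : inner ℝ e₁ c = 0) (hc2 : inner ℝ e₂ c = 0) (h12 : inner ℝ e₁ e₂ = 0) (ρ₀ s t : ℝ) :
    inner ℝ (circ c e₁ e₂ ρ₀ s) (circ c e₁ e₂ ρ₀ t)
      = cos ρ₀ * cos ρ₀ + sin ρ₀ * sin ρ₀ * cos (s - t) := by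
  have a1 : inner ℝ c c = (1 : ℝ) := by rw [real_inner_self_eq_norm_sq, hc]; norm_num
  have a2 : inner ℝ e₁ e₁ = (1 : ℝ) := by rw [real_inner_self_eq_norm_sq, h1]; norm_num
  have a3 : inner ℝ e₂ e₂ = (1 : ℝ) := by rw [real_inner_self_eq_norm_sq, h2]; norm_num
  have a4 : inner ℝ c e₁ = (0 : ℝ) := by rw [real_inner_comm]; exact hc1
  have a5 : inner ℝ c e₂ = (0 : ℝ) := by rw [real_inner_comm]; exact hc2
  have a6 : inner ℝ e₂ e₁ = (0 : ℝ) := by rw [real_inner_comm]; exact h12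
  unfold circ
  simp only [inner_add_left, inner_add_right, inner_smul_left, inner_smul_right, conj_trivial,
    a1, a2, a3, a4, a5, a6, hc1, hc2, h12, cos_sub]
  ring

lemma circ_inner {c e₁ e₂ : E3} (hc : ‖c‖ = 1)
    (hc1 : inner ℝ e₁ c = 0) (hc2 : inner ℝ e₂ c = 0) (ρ₀ s : ℝ) :
    inner ℝ (circ c e₁ e₂ ρ₀ s) c = cos ρ₀ := by
  have a1 : inner ℝ c c = (1 : ℝ) := by rw [real_inner_self_eq_norm_sq, hc]; norm_num
  unfold circ
  simp only [inner_add_left, inner_smul_left, conj_trivial, a1, hc1, hc2]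
  ring

/-- An equatorial unit vector is a value of the parametrisation of the equator. -/
lemma equator {u : E3} (hu : ‖u‖ = 1) (h3 : u.ofLp 2 = 0) :
    ∃ φ : ℝ, u = !₂[cos φ, sin φ, 0] := by
  have h1 : u.ofLp 0 ^ 2 + u.ofLp 1 ^ 2 = 1 := by
    have h2 := EuclideanSpace.norm_eq u
    rw [hu, Fin.sum_univ_three, h3] at h2
    have h4 : (1 : ℝ) ^ 2 = (√(‖u.ofLp 0‖ ^ 2 + ‖u.ofLp 1‖ ^ 2 + ‖(0 : ℝ)‖ ^ 2)) ^ 2 := by
      rw [← h2]
    rw [Real.sq_sqrt (by positivity)] at h4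
    simp only [Real.norm_eq_abs, sq_abs] at h4
    linarith
  obtain ⟨φ, h4, h5⟩ : ∃ φ : ℝ, u.ofLp 0 = cos φ ∧ u.ofLp 1 = sin φ := by
    set z : ℂ := ⟨u.ofLp 0, u.ofLp 1⟩ with hz
    have hz1 : ‖z‖ = 1 := by
      rw [Complex.norm_def, Complex.normSq_apply, Real.sqrt_eq_one]
      simp only [hz]
      linarith
    refine ⟨z.arg, ?_, ?_⟩
    · have hz0 : z ≠ 0 := by rintro h; rw [h] at hz1; simp at hz1
      rw [Complex.cos_arg hz0, hz1, div_one]
    · rw [Complex.sin_arg, hz1, div_one]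
  refine ⟨φ, ?_⟩
  ext i
  fin_cases i
  · simpa using h4
  · simpa using h5
  · simpa using h3

lemma neg_equator (φ : ℝ) : -(!₂[cos φ, sin φ, 0] : E3) = !₂[cos (φ + π), sin (φ + π), 0] := by
  ext i
  fin_cases i <;> simp [cos_add_pi, sin_add_pi]

/-- The inner surface satisfies the hypothesis of the cap theorem. -/
lemma disc_dist {M : Type} [MetricSpace M] {S S₀ : OrientedSurface M} {c e₁ e₂ : E3} {ρ₀ : ℝ}
    (hc : ‖c‖ = 1) (h1 : ‖e₁‖ = 1) (h2 : ‖e₂‖ = 1)
    (hc1 : inner ℝ e₁ c = 0) (hc2 : inner ℝ e₂ c = 0) (h12 : inner ℝ e₁ e₂ = 0)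
    (hκ : 0 < cos ρ₀) (hup : ∀ s, 0 ≤ (circ c e₁ e₂ ρ₀ s).ofLp 2)
    (hD : DiscReplaced S S₀ c e₁ e₂ ρ₀)
    (hS : ∀ φ : ℝ, π ≤ dist (S.boundary (φ : AddCircle (2 * π)))
      (S.boundary ((φ + π : ℝ) : AddCircle (2 * π)))) (s t : ℝ) :
    InnerProductGeometry.angle (circ c e₁ e₂ ρ₀ s) (circ c e₁ e₂ ρ₀ t) ≤
      dist (S₀.boundary (s : AddCircle (2 * π))) (S₀.boundary (t : AddCircle (2 * π))) := by
  obtain ⟨p, hp⟩ : ∃ p, p = circ c e₁ e₂ ρ₀ s := ⟨_, rfl⟩
  obtain ⟨q, hq⟩ : ∃ q, q = circ c e₁ e₂ ρ₀ t := ⟨_, rfl⟩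
  have hn := circ_norm hc h1 h2 hc1 hc2 h12 ρ₀
  have hp1 : ‖p‖ = 1 := by
    have h3 := hn s s
    rw [← hp, real_inner_self_eq_norm_sq, sub_self, cos_zero] at h3
    have h4 := norm_nonneg p
    nlinarith [sin_sq_add_cos_sq ρ₀]
  have hq1 : ‖q‖ = 1 := by
    have h3 := hn t t
    rw [← hq, real_inner_self_eq_norm_sq, sub_self, cos_zero] at h3
    have h4 := norm_nonneg q
    nlinarith [sin_sq_add_cos_sq ρ₀]
  have hpc : inner ℝ p c = cos ρ₀ := by rw [hp]; exact circ_inner hc hc1 hc2 ρ₀ s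
  have hqc : inner ℝ q c = cos ρ₀ := by rw [hq]; exact circ_inner hc hc1 hc2 ρ₀ t
  have hp3 : 0 ≤ p.ofLp 2 := by rw [hp]; exact hup s
  have hq3 : 0 ≤ q.ofLp 2 := by rw [hq]; exact hup t
  have hp0 : p ≠ 0 := by rintro h; rw [h, norm_zero] at hp1; norm_num at hp1
  rw [← hD.pos_circ s, ← hD.pos_circ t, ← hp, ← hq]
  by_cases hpq : p = q
  · rw [hpq, InnerProductGeometry.angle_self (by rw [← hpq]; exact hp0)]
    exact dist_nonneg
  obtain ⟨α, β, hα, hβ, hαβ, hne⟩ : ∃ α β : ℝ, 0 ≤ α ∧ 0 ≤ β ∧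
      α * p.ofLp 2 - β * q.ofLp 2 = 0 ∧ (0 < α ∨ 0 < β) := by
    rcases hp3.eq_or_lt with h | h
    · exact ⟨1, 0, by norm_num, le_rfl, by rw [← h]; ring, Or.inl one_pos⟩
    · exact ⟨q.ofLp 2, p.ofLp 2, hq3, hp3, by ring, Or.inr h⟩
  -- `α p - β q ≠ 0`
  have hv : α • p - β • q ≠ 0 := by
    intro h
    have h3 : inner ℝ (α • p - β • q) c = (α - β) * cos ρ₀ := by
      rw [inner_sub_left, inner_smul_left, inner_smul_left, hpc, hqc]
      simp only [conj_trivial]
      ring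
    rw [h, inner_zero_left] at h3
    have h4 : α - β = 0 := by
      rcases mul_eq_zero.1 h3.symm with h5 | h5
      · exact h5
      · exact absurd h5 hκ.ne'
    have h5 : α = β := by linarith
    have hβ0 : β ≠ 0 := by
      rcases hne with h6 | h6
      · rw [← h5]; exact h6.ne'
      · exact h6.ne'
    rw [h5, ← smul_sub] at h
    rcases smul_eq_zero.1 h with h6 | h6
    · exact hβ0 h6
    · exact hpq (sub_eq_zero.1 h6)
  obtain ⟨n, hndef⟩ : ∃ n, n = ‖α • p - β • q‖ := ⟨_, rfl⟩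
  have hn0 : 0 < n := by rw [hndef]; exact norm_pos_iff.2 hv
  obtain ⟨u, hudef⟩ : ∃ u : E3, u = n⁻¹ • (α • p - β • q) := ⟨_, rfl⟩
  have hu : n • u = α • p - β • q := by
    rw [hudef, smul_smul, mul_inv_cancel₀ hn0.ne', one_smul]
  have hu1 : ‖u‖ = 1 := by
    rw [hudef, norm_smul, norm_inv, Real.norm_of_nonneg hn0.le, ← hndef,
      inv_mul_cancel₀ hn0.ne']
  have hu0 : u ≠ 0 := by rintro h; rw [h, norm_zero] at hu1; norm_num at hu1
  have hu3 : u.ofLp 2 = 0 := by
    rw [hudef]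
    simp only [PiLp.smul_apply, PiLp.sub_apply, smul_eq_mul]
    rw [hαβ, mul_zero]
  obtain ⟨φ, hφ⟩ := equator hu1 hu3
  have hub : hD.pos u = S.boundary (φ : AddCircle (2 * π)) := by
    rw [hφ]; exact hD.pos_equator φ
  have hub' : hD.pos (-u) = S.boundary ((φ + π : ℝ) : AddCircle (2 * π)) := by
    rw [hφ, neg_equator]; exact hD.pos_equator (φ + π)
  have hcon : ∀ A B : ℝ, 0 ≤ A → 0 ≤ B →
      inner ℝ (A • p - B • q) c ≤ cos ρ₀ * ‖A • p - B • q‖ := fun A B hA hB =>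
    cone_outside hp1 hq1 hpc hqc hκ.le hA hB
  have hcon' : ∀ A B : ℝ, 0 ≤ A → 0 ≤ B →
      inner ℝ (A • q - B • p) c ≤ cos ρ₀ * ‖A • q - B • p‖ := fun A B hA hB =>
    cone_outside hq1 hp1 hqc hpc hκ.le hA hB
  have huO : u ∈ Outside c ρ₀ := by
    refine ⟨hu1, hu3.ge, ?_⟩
    have h3 := hcon (n⁻¹ * α) (n⁻¹ * β) (by positivity) (by positivity)
    rw [show (n⁻¹ * α) • p - (n⁻¹ * β) • q = u by
      rw [hudef, smul_sub, smul_smul, smul_smul], hu1, mul_one] at h3
    exact h3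
  have hnuO : -u ∈ Outside c ρ₀ := by
    refine ⟨by rw [norm_neg]; exact hu1, by simp [hu3], ?_⟩
    have h3 := hcon' (n⁻¹ * β) (n⁻¹ * α) (by positivity) (by positivity)
    rw [show (n⁻¹ * β) • q - (n⁻¹ * α) • p = -u by
      rw [hudef, smul_sub, smul_smul, smul_smul]; abel, norm_neg, hu1, mul_one] at h3
    exact h3
  have hpO : p ∈ Outside c ρ₀ := ⟨hp1, hp3, hpc.le⟩
  have hqO : q ∈ Outside c ρ₀ := ⟨hq1, hq3, hqc.le⟩
  have d1 := hD.dist_le u huO p hpO (by
    intro r hr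
    have h3 := hcon ((1 - r) * (n⁻¹ * α) + r) ((1 - r) * (n⁻¹ * β))
      (by have := hr.1; have : 0 ≤ 1 - r := by linarith [hr.2]
          positivity) (by have : 0 ≤ 1 - r := by linarith [hr.2]
                          positivity)
    rw [show ((1 - r) * (n⁻¹ * α) + r) • p - ((1 - r) * (n⁻¹ * β)) • q
      = (1 - r) • u + r • p by
        rw [hudef]
        module] at h3
    exact h3)
  have d2 := hD.dist_le q hqO (-u) hnuO (by
    intro r hr
    have h3 := hcon' (r * (n⁻¹ * β) + (1 - r)) (r * (n⁻¹ * α))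
      (by have := hr.1; have : 0 ≤ 1 - r := by linarith [hr.2]
          positivity) (by have := hr.1; positivity)
    rw [show (r * (n⁻¹ * β) + (1 - r)) • q - (r * (n⁻¹ * α)) • p
      = (1 - r) • q + r • (-u) by
        rw [hudef]
        module] at h3
    exact h3)
  have d3 := hS φ
  rw [← hub, ← hub'] at d3
  have d4 := dist_triangle4 (hD.pos u) (hD.pos p) (hD.pos q) (hD.pos (-u))
  have d5 := angle3 (q := q) hα hβ hn0 hu hp0 hu0
  linarith

/-- The filling area conjecture for the hemisphere with a replaced disc. -/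
theorem disc_area (h : S_CAP2) {M : Type} [MetricSpace M] (S S₀ : OrientedSurface M)
    {c e₁ e₂ : E3} {ρ₀ : ℝ}
    (hc : ‖c‖ = 1) (h1 : ‖e₁‖ = 1) (h2 : ‖e₂‖ = 1)
    (hc1 : inner ℝ e₁ c = 0) (hc2 : inner ℝ e₂ c = 0) (h12 : inner ℝ e₁ e₂ = 0)
    (hρ0 : 0 < ρ₀) (hρ1 : ρ₀ ≤ π / 2) (hκ : 1 / √10 ≤ cos ρ₀)
    (hup : ∀ s, 0 ≤ (circ c e₁ e₂ ρ₀ s).ofLp 2)
    (hD : DiscReplaced S S₀ c e₁ e₂ ρ₀)
    (hS : ∀ φ : ℝ, π ≤ dist (S.boundary (φ : AddCircle (2 * π)))
      (S.boundary ((φ + π : ℝ) : AddCircle (2 * π)))) : 2 * π ≤ S.area := by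
  have hpi := Real.pi_pos
  have hsin0 : 0 < sin ρ₀ := sin_pos_of_pos_of_lt_pi hρ0 (by linarith)
  have hsq : cos ρ₀ ^ 2 = 1 - sin ρ₀ ^ 2 := by rw [cos_sq']
  have h10 : (0 : ℝ) < 1 / √10 := by positivity
  have h10' : (1 / √10) ^ 2 = (1 : ℝ) / 10 := by
    rw [div_pow, Real.sq_sqrt (by norm_num)]; norm_num
  have hκ0 : 0 < cos ρ₀ := h10.trans_le hκ
  have hcos : √(1 - sin ρ₀ ^ 2) = cos ρ₀ := by
    rw [← hsq, Real.sqrt_sq hκ0.le]
  have hsin1 : sin ρ₀ ^ 2 ≤ 9 / 10 := by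
    have h3 : (1 / √10) ^ 2 ≤ cos ρ₀ ^ 2 := pow_le_pow_left₀ h10.le hκ 2
    rw [h10', hsq] at h3
    linarith
  have hn := circ_norm hc h1 h2 hc1 hc2 h12 ρ₀
  have hn1 : ∀ s, ‖circ c e₁ e₂ ρ₀ s‖ = 1 := by
    intro s
    have h3 := hn s s
    rw [real_inner_self_eq_norm_sq, sub_self, cos_zero] at h3
    have h4 := norm_nonneg (circ c e₁ e₂ ρ₀ s)
    nlinarith [sin_sq_add_cos_sq ρ₀]
  have hcap := h M S₀ (sin ρ₀) hsin0 hsin1 (by
    intro s t
    refine le_trans (le_of_eq ?_) (disc_dist hc h1 h2 hc1 hc2 h12 hκ0 hup hD hS s t)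
    unfold InnerProductGeometry.angle
    rw [hn1, hn1, mul_one, div_one, hn, arccos_circle hsin0.le (sin_le_one _) hsq])
  rw [hcos] at hcap
  have h4 : S.area = S₀.area + 2 * π * cos ρ₀ := by
    unfold OrientedSurface.area
    rw [← hD.area_outside, ← Finset.sum_filter_add_sum_filter_not Finset.univ
      (fun i => i ∈ Set.range hD.emb)]
    congr 1
    have : Finset.univ.filter (fun i => i ∈ Set.range hD.emb)
        = Finset.univ.map hD.emb := by
      ext i
      simp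
    rw [this, Finset.sum_map]
    exact Finset.sum_congr rfl fun i _ => by rw [hD.metric_emb]
  rw [h4]
  nlinarith

end Pool.Agent.K9h55.FA
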